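import Pool.Agent.Helper65.Res.A2

/-!
# Route A, case `2 ≤ j`: the final arithmetic `disp ≤ 0`

For `8 ≤ s` and `3 ≤ j` minus the display is, in each of four regimes, a sum of nonnegative
products of at most three of the variables and the slacks (certificates found by linear
programming); `j = 2` is done by hand and `s ≤ 7` by a finite check.
-/

namespace RouteA

namespace Fin60

theorem reg1 {a0 a1 b2 g2 b3 g3 s j p jj : ℤ} (h0 : 0 ≤ a0) (h1 : 0 ≤ a1) (h2 : 0 ≤ b2)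
    (h3 : 0 ≤ g2) (h4 : 0 ≤ b3) (h5 : 0 ≤ g3)
    (es : s = a0 + a1 + (b2 + g2) + (b3 + g3)) (ej : j = a1 + 2 * (b2 + g2) + 3 * (b3 + g3))
    (hp : 0 ≤ p) (ep : p = s + 4 - 3 * j)
    (hjj : 0 ≤ jj) (ejj : jj = j - 3) :
    3 * s * (s - 1) * (-3 * j) + ((s - 6 - j) - (-3 * j)) *
      (a1 * (a1 - 1) + 4 * a1 * (b2 + g2) + 2 * (b2 + g2) * ((b2 + g2) - 1) +
        6 * (a1 + (b2 + g2)) * (b3 + g3) + 3 * (b3 + g3) * ((b3 + g3) - 1)) +
      6 * (2 * j - s - 6) * a0 * (g2 + g3) + s * (18 * s - 12) - 6 * j * s +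
      (b2 + g2) * (2 * s - 16) + (b3 + g3) * (2 * s - 10) + 6 * s ^ 2 * g2 +
      6 * (s + 1) ^ 2 * g3 ≤ 0 := by
  have hpos : 0 ≤
      40924800 * (a0) + 30189600 * (a0 * b2) + 18313505 * (a0 * g2) + 66369600 * (a0 * jj) +
      7100184 * (a1 * a1) + 17512320 * (a1 * b2) + 26127360 * (a1 * b3) + 7846986 * (a1 * g2) +
      3087504 * (a1 * p) + 3675000 * (b2 * b2) + 3149475 * (b2 * g2) + 12441600 * (g3 * g3) +
      18921600 * (g3 * p) + 6542400 * (p * jj) + 1764000 * (p * p) + 2166480 * (a0 * a0 * a1) +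
      10936800 * (a0 * a0 * b3) + 291020 * (a0 * a0 * g2) + 1692000 * (a0 * a0 * g3) +
      4634714 * (a0 * a1 * a1) + 8692880 * (a0 * a1 * b2) + 13731840 * (a0 * a1 * b3) +
      1269269 * (a0 * a1 * g2) + 10303520 * (a0 * a1 * jj) + 294876 * (a0 * a1 * p) +
      3807650 * (a0 * b2 * b2) + 8265600 * (a0 * b2 * b3) + 4269650 * (a0 * b2 * g2) +
      20671600 * (a0 * b2 * jj) + 5736150 * (a0 * b2 * p) + 3110400 * (a0 * b3 * g3) +
      8393615 * (a0 * g2 * b3) + 416240 * (a0 * g2 * g3) + 6088780 * (a0 * g2 * p) +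
      10828800 * (a0 * g3 * jj) + 6631200 * (a0 * g3 * p) + 29585600 * (a0 * jj * jj) +
      9055200 * (a0 * p * jj) + 1525116 * (a1 * a1 * a1) + 3431358 * (a1 * a1 * b2) +
      2488320 * (a1 * a1 * b3) + 5840976 * (a1 * a1 * jj) + 345294 * (a1 * a1 * p) +
      1197420 * (a1 * b2 * b2) + 1064595 * (a1 * b2 * g2) + 9745920 * (a1 * b3 * g3) +
      3712512 * (a1 * b3 * p) + 5026518 * (a1 * g2 * b3) + 4834368 * (a1 * g2 * g3) +
      2291996 * (a1 * g2 * p) + 7672320 * (a1 * g3 * g3) + 4930752 * (a1 * g3 * p) +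
      622720 * (a1 * jj * jj) + 1184244 * (a1 * p * p) + 242550 * (b2 * b2 * b2) +
      3628800 * (b2 * b3 * g3) + 457800 * (b2 * b3 * p) + 672525 * (b2 * g2 * b3) +
      614950 * (b2 * g2 * p) + 2592000 * (b2 * g3 * g3) + 4021800 * (b2 * g3 * p) +
      14033600 * (b2 * jj * jj) + 4518600 * (b2 * p * jj) + 1555050 * (b2 * p * p) +
      8294400 * (b3 * b3 * jj) + 13996800 * (b3 * jj * jj) + 2475900 * (g2 * b3 * g3) +
      384300 * (g2 * b3 * jj) + 1995000 * (g2 * g2 * b3) + 242550 * (g2 * g2 * g2) +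
      1322475 * (g2 * g2 * g3) + 791175 * (g2 * g2 * jj) + 1076950 * (g2 * g2 * p) +
      1439100 * (g2 * g3 * g3) + 3275775 * (g2 * g3 * p) + 13220900 * (g2 * jj * jj) +
      3050875 * (g2 * p * jj) + 911400 * (g2 * p * p) + 3110400 * (g3 * g3 * p) +
      2613600 * (g3 * p * p) + 1548800 * (jj * jj * jj) + 2558400 * (p * jj * jj) := by
    positivity
  have hid : 1411200 * (3 * s * (s - 1) * (-3 * j) + ((s - 6 - j) - (-3 * j)) *
      (a1 * (a1 - 1) + 4 * a1 * (b2 + g2) + 2 * (b2 + g2) * ((b2 + g2) - 1) +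
        6 * (a1 + (b2 + g2)) * (b3 + g3) + 3 * (b3 + g3) * ((b3 + g3) - 1)) +
      6 * (2 * j - s - 6) * a0 * (g2 + g3) + s * (18 * s - 12) - 6 * j * s +
      (b2 + g2) * (2 * s - 16) + (b3 + g3) * (2 * s - 10) + 6 * s ^ 2 * g2 +
      6 * (s + 1) ^ 2 * g3) = -(
      40924800 * (a0) + 30189600 * (a0 * b2) + 18313505 * (a0 * g2) + 66369600 * (a0 * jj) +
      7100184 * (a1 * a1) + 17512320 * (a1 * b2) + 26127360 * (a1 * b3) + 7846986 * (a1 * g2) +
      3087504 * (a1 * p) + 3675000 * (b2 * b2) + 3149475 * (b2 * g2) + 12441600 * (g3 * g3) +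
      18921600 * (g3 * p) + 6542400 * (p * jj) + 1764000 * (p * p) + 2166480 * (a0 * a0 * a1) +
      10936800 * (a0 * a0 * b3) + 291020 * (a0 * a0 * g2) + 1692000 * (a0 * a0 * g3) +
      4634714 * (a0 * a1 * a1) + 8692880 * (a0 * a1 * b2) + 13731840 * (a0 * a1 * b3) +
      1269269 * (a0 * a1 * g2) + 10303520 * (a0 * a1 * jj) + 294876 * (a0 * a1 * p) +
      3807650 * (a0 * b2 * b2) + 8265600 * (a0 * b2 * b3) + 4269650 * (a0 * b2 * g2) +
      20671600 * (a0 * b2 * jj) + 5736150 * (a0 * b2 * p) + 3110400 * (a0 * b3 * g3) +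
      8393615 * (a0 * g2 * b3) + 416240 * (a0 * g2 * g3) + 6088780 * (a0 * g2 * p) +
      10828800 * (a0 * g3 * jj) + 6631200 * (a0 * g3 * p) + 29585600 * (a0 * jj * jj) +
      9055200 * (a0 * p * jj) + 1525116 * (a1 * a1 * a1) + 3431358 * (a1 * a1 * b2) +
      2488320 * (a1 * a1 * b3) + 5840976 * (a1 * a1 * jj) + 345294 * (a1 * a1 * p) +
      1197420 * (a1 * b2 * b2) + 1064595 * (a1 * b2 * g2) + 9745920 * (a1 * b3 * g3) +
      3712512 * (a1 * b3 * p) + 5026518 * (a1 * g2 * b3) + 4834368 * (a1 * g2 * g3) +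
      2291996 * (a1 * g2 * p) + 7672320 * (a1 * g3 * g3) + 4930752 * (a1 * g3 * p) +
      622720 * (a1 * jj * jj) + 1184244 * (a1 * p * p) + 242550 * (b2 * b2 * b2) +
      3628800 * (b2 * b3 * g3) + 457800 * (b2 * b3 * p) + 672525 * (b2 * g2 * b3) +
      614950 * (b2 * g2 * p) + 2592000 * (b2 * g3 * g3) + 4021800 * (b2 * g3 * p) +
      14033600 * (b2 * jj * jj) + 4518600 * (b2 * p * jj) + 1555050 * (b2 * p * p) +
      8294400 * (b3 * b3 * jj) + 13996800 * (b3 * jj * jj) + 2475900 * (g2 * b3 * g3) +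
      384300 * (g2 * b3 * jj) + 1995000 * (g2 * g2 * b3) + 242550 * (g2 * g2 * g2) +
      1322475 * (g2 * g2 * g3) + 791175 * (g2 * g2 * jj) + 1076950 * (g2 * g2 * p) +
      1439100 * (g2 * g3 * g3) + 3275775 * (g2 * g3 * p) + 13220900 * (g2 * jj * jj) +
      3050875 * (g2 * p * jj) + 911400 * (g2 * p * p) + 3110400 * (g3 * g3 * p) +
      2613600 * (g3 * p * p) + 1548800 * (jj * jj * jj) + 2558400 * (p * jj * jj)) := by
    subst ejj ep
    subst es ej
    ring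
  linarith [hpos, hid]

theorem reg2 {a0 a1 b2 g2 b3 g3 s j p q w : ℤ} (h0 : 0 ≤ a0) (h1 : 0 ≤ a1) (h2 : 0 ≤ b2)
    (h3 : 0 ≤ g2) (h4 : 0 ≤ b3) (h5 : 0 ≤ g3)
    (es : s = a0 + a1 + (b2 + g2) + (b3 + g3)) (ej : j = a1 + 2 * (b2 + g2) + 3 * (b3 + g3))
    (hp : 0 ≤ p) (ep : p = 3 * j - s - 4)
    (hq : 0 ≤ q) (eq : q = s - j)
    (hw : 0 ≤ w) (ew : w = s - 8) :
    3 * s * (s - 1) * (-s - 4) + ((s - 6 - j) - (-s - 4)) *
      (a1 * (a1 - 1) + 4 * a1 * (b2 + g2) + 2 * (b2 + g2) * ((b2 + g2) - 1) +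
        6 * (a1 + (b2 + g2)) * (b3 + g3) + 3 * (b3 + g3) * ((b3 + g3) - 1)) +
      6 * (-j - 2) * a0 * (g2 + g3) + s * (18 * s - 12) - 6 * j * s +
      (b2 + g2) * (2 * s - 16) + (b3 + g3) * (2 * s - 10) + 6 * s ^ 2 * g2 +
      6 * (s + 1) ^ 2 * g3 ≤ 0 := by
  have hpos : 0 ≤
      2688630986880 * (a0 * a0) + 1550764452960 * (a0 * a1) + 4081546602000 * (a0 * p) +
      1819625220480 * (a1 * p) + 754493619840 * (w * w) + 2066863995936 * (a0 * a0 * g2) +
      1832503046400 * (a0 * a0 * g3) + 6441993540 * (a0 * a0 * p) +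
      1502697054960 * (a0 * a0 * q) + 51610309995 * (a0 * a1 * a1) +
      77086452600 * (a0 * a1 * b2) + 199193325030 * (a0 * a1 * g2) +
      1128650980320 * (a0 * b2 * g2) + 46987257600 * (a0 * b2 * g3) +
      1573148138805 * (a0 * b2 * p) + 93974515200 * (a0 * b3 * g3) +
      2534108653890 * (a0 * b3 * p) + 688793393520 * (a0 * b3 * w) +
      237932950824 * (a0 * g2 * g2) + 46987257600 * (a0 * g2 * g3) +
      3311204448240 * (a0 * g3 * w) + 43351560120 * (a0 * w * w) + 264106442085 * (a1 * a1 * a1) +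
      551197126575 * (a1 * a1 * b2) + 671696018265 * (a1 * a1 * b3) +
      201823442265 * (a1 * a1 * g3) + 411900585650 * (a1 * a1 * p) + 60332607335 * (a1 * a1 * w) +
      95306236200 * (a1 * b2 * b2) + 637151554116 * (a1 * b2 * g2) +
      2117639095350 * (a1 * b2 * p) + 939745152000 * (a1 * b3 * g3) +
      2904113391660 * (a1 * b3 * p) + 294374728080 * (a1 * b3 * w) +
      858013536663 * (a1 * g2 * b3) + 858013536663 * (a1 * g2 * g3) +
      375859366209 * (a1 * g2 * q) + 1119804297483 * (a1 * g2 * w) +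
      1033719667200 * (a1 * g3 * g3) + 3260836924560 * (a1 * g3 * w) +
      2058368188080 * (a1 * p * q) + 7091802509400 * (a1 * q * q) + 46407168000 * (b2 * b2 * b2) +
      285786942336 * (b2 * b2 * g2) + 1043476338915 * (b2 * b2 * p) +
      724198650480 * (b2 * b2 * q) + 1420731857430 * (b2 * b3 * p) +
      140991453360 * (b2 * b3 * w) + 239379774336 * (b2 * g2 * g2) +
      682246126971 * (b2 * g2 * p) + 678982902048 * (b2 * g2 * w) +
      281923545600 * (b2 * g3 * g3) + 1592897713200 * (b2 * g3 * w) +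
      2768102734545 * (b2 * p * q) + 66750426210 * (b2 * p * w) + 11332772532000 * (b2 * q * q) +
      106235727240 * (b2 * w * w) + 156624192000 * (b3 * b3 * b3) + 31324838400 * (b3 * b3 * w) +
      62649676800 * (b3 * g3 * p) + 3409739600850 * (b3 * p * q) + 358769690340 * (b3 * p * w) +
      14642404149600 * (b3 * q * q) + 1487263771008 * (g2 * b3 * p) +
      155900105244 * (g2 * g2 * b3) + 155900105244 * (g2 * g2 * g3) +
      708364696932 * (g2 * g2 * q) + 498367796076 * (g2 * g2 * w) +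
      281923545600 * (g2 * g3 * g3) + 66531913578 * (g2 * g3 * p) +
      1451906259840 * (g2 * g3 * w) + 27806400774 * (g2 * p * q) + 26093926338 * (g2 * p * w) +
      1163823544080 * (g2 * q * w) + 126563977176 * (g2 * w * w) + 156624192000 * (g3 * g3 * g3) +
      48101480040 * (g3 * p * p) + 109114853760 * (g3 * w * w) + 23582121540 * (p * p * q) +
      48009704400 * (q * q * q) + 46779865200 * (q * q * w) + 111537869640 * (q * w * w) +
      94311702480 * (w * w * w) := by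
    positivity
  have hid : 621275961600 * (3 * s * (s - 1) * (-s - 4) + ((s - 6 - j) - (-s - 4)) *
      (a1 * (a1 - 1) + 4 * a1 * (b2 + g2) + 2 * (b2 + g2) * ((b2 + g2) - 1) +
        6 * (a1 + (b2 + g2)) * (b3 + g3) + 3 * (b3 + g3) * ((b3 + g3) - 1)) +
      6 * (-j - 2) * a0 * (g2 + g3) + s * (18 * s - 12) - 6 * j * s +
      (b2 + g2) * (2 * s - 16) + (b3 + g3) * (2 * s - 10) + 6 * s ^ 2 * g2 +
      6 * (s + 1) ^ 2 * g3) = -(
      2688630986880 * (a0 * a0) + 1550764452960 * (a0 * a1) + 4081546602000 * (a0 * p) +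
      1819625220480 * (a1 * p) + 754493619840 * (w * w) + 2066863995936 * (a0 * a0 * g2) +
      1832503046400 * (a0 * a0 * g3) + 6441993540 * (a0 * a0 * p) +
      1502697054960 * (a0 * a0 * q) + 51610309995 * (a0 * a1 * a1) +
      77086452600 * (a0 * a1 * b2) + 199193325030 * (a0 * a1 * g2) +
      1128650980320 * (a0 * b2 * g2) + 46987257600 * (a0 * b2 * g3) +
      1573148138805 * (a0 * b2 * p) + 93974515200 * (a0 * b3 * g3) +
      2534108653890 * (a0 * b3 * p) + 688793393520 * (a0 * b3 * w) +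
      237932950824 * (a0 * g2 * g2) + 46987257600 * (a0 * g2 * g3) +
      3311204448240 * (a0 * g3 * w) + 43351560120 * (a0 * w * w) + 264106442085 * (a1 * a1 * a1) +
      551197126575 * (a1 * a1 * b2) + 671696018265 * (a1 * a1 * b3) +
      201823442265 * (a1 * a1 * g3) + 411900585650 * (a1 * a1 * p) + 60332607335 * (a1 * a1 * w) +
      95306236200 * (a1 * b2 * b2) + 637151554116 * (a1 * b2 * g2) +
      2117639095350 * (a1 * b2 * p) + 939745152000 * (a1 * b3 * g3) +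
      2904113391660 * (a1 * b3 * p) + 294374728080 * (a1 * b3 * w) +
      858013536663 * (a1 * g2 * b3) + 858013536663 * (a1 * g2 * g3) +
      375859366209 * (a1 * g2 * q) + 1119804297483 * (a1 * g2 * w) +
      1033719667200 * (a1 * g3 * g3) + 3260836924560 * (a1 * g3 * w) +
      2058368188080 * (a1 * p * q) + 7091802509400 * (a1 * q * q) + 46407168000 * (b2 * b2 * b2) +
      285786942336 * (b2 * b2 * g2) + 1043476338915 * (b2 * b2 * p) +
      724198650480 * (b2 * b2 * q) + 1420731857430 * (b2 * b3 * p) +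
      140991453360 * (b2 * b3 * w) + 239379774336 * (b2 * g2 * g2) +
      682246126971 * (b2 * g2 * p) + 678982902048 * (b2 * g2 * w) +
      281923545600 * (b2 * g3 * g3) + 1592897713200 * (b2 * g3 * w) +
      2768102734545 * (b2 * p * q) + 66750426210 * (b2 * p * w) + 11332772532000 * (b2 * q * q) +
      106235727240 * (b2 * w * w) + 156624192000 * (b3 * b3 * b3) + 31324838400 * (b3 * b3 * w) +
      62649676800 * (b3 * g3 * p) + 3409739600850 * (b3 * p * q) + 358769690340 * (b3 * p * w) +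
      14642404149600 * (b3 * q * q) + 1487263771008 * (g2 * b3 * p) +
      155900105244 * (g2 * g2 * b3) + 155900105244 * (g2 * g2 * g3) +
      708364696932 * (g2 * g2 * q) + 498367796076 * (g2 * g2 * w) +
      281923545600 * (g2 * g3 * g3) + 66531913578 * (g2 * g3 * p) +
      1451906259840 * (g2 * g3 * w) + 27806400774 * (g2 * p * q) + 26093926338 * (g2 * p * w) +
      1163823544080 * (g2 * q * w) + 126563977176 * (g2 * w * w) + 156624192000 * (g3 * g3 * g3) +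
      48101480040 * (g3 * p * p) + 109114853760 * (g3 * w * w) + 23582121540 * (p * p * q) +
      48009704400 * (q * q * q) + 46779865200 * (q * q * w) + 111537869640 * (q * w * w) +
      94311702480 * (w * w * w)) := by
    subst ew eq ep
    subst es ej
    ring
  linarith [hpos, hid]

theorem reg3 {a0 a1 b2 g2 b3 g3 s j p q w : ℤ} (h0 : 0 ≤ a0) (h1 : 0 ≤ a1) (h2 : 0 ≤ b2)
    (h3 : 0 ≤ g2) (h4 : 0 ≤ b3) (h5 : 0 ≤ g3)
    (es : s = a0 + a1 + (b2 + g2) + (b3 + g3)) (ej : j = a1 + 2 * (b2 + g2) + 3 * (b3 + g3))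
    (hp : 0 ≤ p) (ep : p = j - s)
    (hq : 0 ≤ q) (eq : q = 3 * s + 2 - 2 * j)
    (hw : 0 ≤ w) (ew : w = s - 8) :
    3 * s * (s - 1) * (2 * s - 4 - 3 * j) + ((s - 6 - j) - (2 * s - 4 - 3 * j)) *
      (a1 * (a1 - 1) + 4 * a1 * (b2 + g2) + 2 * (b2 + g2) * ((b2 + g2) - 1) +
        6 * (a1 + (b2 + g2)) * (b3 + g3) + 3 * (b3 + g3) * ((b3 + g3) - 1)) +
      6 * (2 * j - 3 * s - 2) * a0 * (g2 + g3) + s * (18 * s - 12) - 6 * j * s +
      (b2 + g2) * (2 * s - 16) + (b3 + g3) * (2 * s - 10) + 6 * s ^ 2 * g2 +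
      6 * (s + 1) ^ 2 * g3 ≤ 0 := by
  have hpos : 0 ≤
      9742200 * (a1 * w) + 1312000 * (g2 * g2) + 6489600 * (a0 * a0 * p) +
      2649075 * (a0 * a0 * q) + 3912125 * (a0 * g2 * q) + 60565995 * (a0 * p * q) +
      8923200 * (a0 * q * q) + 12979200 * (a1 * a1 * p) + 11711700 * (a1 * a1 * q) +
      1520000 * (a1 * a1 * w) + 12979200 * (a1 * b2 * p) + 26583700 * (a1 * b2 * q) +
      131200 * (a1 * b2 * w) + 29744000 * (a1 * b3 * q) + 196800 * (a1 * b3 * w) +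
      12979200 * (a1 * g2 * p) + 13052000 * (a1 * g3 * w) + 28618460 * (a1 * p * q) +
      2018120 * (a1 * p * w) + 1038060 * (a1 * w * w) + 15142400 * (b2 * b2 * p) +
      12594725 * (b2 * b2 * q) + 131200 * (b2 * b2 * w) + 14872000 * (b2 * b3 * q) +
      393600 * (b2 * b3 * w) + 30284800 * (b2 * g2 * p) + 12725925 * (b2 * g2 * q) +
      26104000 * (b2 * g3 * w) + 114216960 * (b2 * p * p) + 85803215 * (b2 * p * q) +
      28213120 * (b2 * p * w) + 7287280 * (b2 * q * q) + 9272900 * (b2 * q * w) +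
      2804640 * (b2 * w * w) + 4756800 * (b3 * b3 * w) + 48079200 * (b3 * g3 * w) +
      226649280 * (b3 * p * p) + 141203330 * (b3 * p * q) + 49485280 * (b3 * p * w) +
      14128400 * (b3 * q * q) + 17571580 * (b3 * q * w) + 3017200 * (b3 * w * w) +
      16528650 * (g2 * b3 * q) + 14880000 * (g2 * g2 * p) + 1656650 * (g2 * g3 * q) +
      25710400 * (g2 * g3 * w) + 417480 * (g2 * q * w) + 1046240 * (g2 * w * w) +
      43322400 * (g3 * g3 * w) + 82093440 * (g3 * p * p) + 29365890 * (g3 * p * q) +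
      1784640 * (g3 * q * q) + 5205340 * (g3 * q * w) + 1427712 * (p * p * p) +
      17624616 * (p * p * q) + 420784 * (p * w * w) + 419136 * (q * q * w) +
      167440 * (q * w * w) + 15664 * (w * w * w) := by
    positivity
  have hid : 7436000 * (3 * s * (s - 1) * (2 * s - 4 - 3 * j) + ((s - 6 - j) - (2 * s - 4 - 3 * j)) *
      (a1 * (a1 - 1) + 4 * a1 * (b2 + g2) + 2 * (b2 + g2) * ((b2 + g2) - 1) +
        6 * (a1 + (b2 + g2)) * (b3 + g3) + 3 * (b3 + g3) * ((b3 + g3) - 1)) +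
      6 * (2 * j - 3 * s - 2) * a0 * (g2 + g3) + s * (18 * s - 12) - 6 * j * s +
      (b2 + g2) * (2 * s - 16) + (b3 + g3) * (2 * s - 10) + 6 * s ^ 2 * g2 +
      6 * (s + 1) ^ 2 * g3) = -(
      9742200 * (a1 * w) + 1312000 * (g2 * g2) + 6489600 * (a0 * a0 * p) +
      2649075 * (a0 * a0 * q) + 3912125 * (a0 * g2 * q) + 60565995 * (a0 * p * q) +
      8923200 * (a0 * q * q) + 12979200 * (a1 * a1 * p) + 11711700 * (a1 * a1 * q) +
      1520000 * (a1 * a1 * w) + 12979200 * (a1 * b2 * p) + 26583700 * (a1 * b2 * q) +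
      131200 * (a1 * b2 * w) + 29744000 * (a1 * b3 * q) + 196800 * (a1 * b3 * w) +
      12979200 * (a1 * g2 * p) + 13052000 * (a1 * g3 * w) + 28618460 * (a1 * p * q) +
      2018120 * (a1 * p * w) + 1038060 * (a1 * w * w) + 15142400 * (b2 * b2 * p) +
      12594725 * (b2 * b2 * q) + 131200 * (b2 * b2 * w) + 14872000 * (b2 * b3 * q) +
      393600 * (b2 * b3 * w) + 30284800 * (b2 * g2 * p) + 12725925 * (b2 * g2 * q) +
      26104000 * (b2 * g3 * w) + 114216960 * (b2 * p * p) + 85803215 * (b2 * p * q) +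
      28213120 * (b2 * p * w) + 7287280 * (b2 * q * q) + 9272900 * (b2 * q * w) +
      2804640 * (b2 * w * w) + 4756800 * (b3 * b3 * w) + 48079200 * (b3 * g3 * w) +
      226649280 * (b3 * p * p) + 141203330 * (b3 * p * q) + 49485280 * (b3 * p * w) +
      14128400 * (b3 * q * q) + 17571580 * (b3 * q * w) + 3017200 * (b3 * w * w) +
      16528650 * (g2 * b3 * q) + 14880000 * (g2 * g2 * p) + 1656650 * (g2 * g3 * q) +
      25710400 * (g2 * g3 * w) + 417480 * (g2 * q * w) + 1046240 * (g2 * w * w) +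
      43322400 * (g3 * g3 * w) + 82093440 * (g3 * p * p) + 29365890 * (g3 * p * q) +
      1784640 * (g3 * q * q) + 5205340 * (g3 * q * w) + 1427712 * (p * p * p) +
      17624616 * (p * p * q) + 420784 * (p * w * w) + 419136 * (q * q * w) +
      167440 * (q * w * w) + 15664 * (w * w * w)) := by
    subst ew eq ep
    subst es ej
    ring
  linarith [hpos, hid]

theorem reg4 {a0 a1 b2 g2 b3 g3 s j p w : ℤ} (h0 : 0 ≤ a0) (h1 : 0 ≤ a1) (h2 : 0 ≤ b2)
    (h3 : 0 ≤ g2) (h4 : 0 ≤ b3) (h5 : 0 ≤ g3)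
    (es : s = a0 + a1 + (b2 + g2) + (b3 + g3)) (ej : j = a1 + 2 * (b2 + g2) + 3 * (b3 + g3))
    (hp : 0 ≤ p) (ep : p = 2 * j - 3 * s - 2)
    (hw : 0 ≤ w) (ew : w = s - 8) :
    3 * s * (s - 1) * (2 * s - 4 - 3 * j) + ((4 * s - 4 - 3 * j) - (2 * s - 4 - 3 * j)) *
      (a1 * (a1 - 1) + 4 * a1 * (b2 + g2) + 2 * (b2 + g2) * ((b2 + g2) - 1) +
        6 * (a1 + (b2 + g2)) * (b3 + g3) + 3 * (b3 + g3) * ((b3 + g3) - 1)) +
      6 * (0) * a0 * (g2 + g3) + s * (18 * s - 12) - 6 * j * s +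
      (b2 + g2) * (2 * s - 16) + (b3 + g3) * (2 * s - 10) + 6 * s ^ 2 * g2 +
      6 * (s + 1) ^ 2 * g3 ≤ 0 := by
  have hpos : 0 ≤
      651675024 * (a0 * a0) + 657111312 * (a0 * a1) + 205981204 * (a0 * p) +
      221528736 * (a1 * a1) + 151667208 * (a1 * p) + 361091016 * (b2 * b2) +
      605466576 * (b2 * b3) + 414630216 * (b2 * g2) + 462208032 * (g2 * b3) +
      24041160 * (g2 * g2) + 59788520 * (g3 * p) + 19322732 * (p * p) + 4397140 * (p * w) +
      214980480 * (a0 * a0 * b2) + 247690872 * (a0 * a0 * b3) + 19274112 * (a0 * a0 * g2) +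
      51409644 * (a0 * a0 * p) + 24403236 * (a0 * a0 * w) + 287320176 * (a0 * a1 * b2) +
      330254496 * (a0 * a1 * b3) + 26378352 * (a0 * a1 * g2) + 40509040 * (a0 * a1 * p) +
      4211064 * (a0 * a1 * w) + 74464313 * (a0 * b2 * p) + 98869584 * (a0 * b3 * p) +
      5474040 * (a0 * b3 * w) + 40491556 * (a0 * g2 * p) + 11083270 * (a0 * p * p) +
      95999904 * (a1 * a1 * b2) + 110084832 * (a1 * a1 * b3) + 9019296 * (a1 * a1 * g2) +
      4157296 * (a1 * a1 * p) + 6247560 * (a1 * a1 * w) + 12926232 * (a1 * b2 * b2) +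
      12710808 * (a1 * b2 * g2) + 49252973 * (a1 * b2 * p) + 65913056 * (a1 * b3 * p) +
      19099608 * (a1 * b3 * w) + 11019888 * (a1 * g2 * b3) + 2053656 * (a1 * g2 * g2) +
      17786784 * (a1 * g2 * p) + 4599936 * (a1 * g2 * w) + 29931528 * (a1 * g3 * w) +
      2715988 * (a1 * p * p) + 2183082 * (a1 * w * w) + 1512720 * (b2 * b2 * b2) +
      10577952 * (b2 * b2 * b3) + 38099160 * (b2 * b2 * g3) + 6557793 * (b2 * b2 * p) +
      39726720 * (b2 * b2 * w) + 31962997 * (b2 * b3 * p) + 55425744 * (b2 * b3 * w) +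
      3770712 * (b2 * g2 * b3) + 36773352 * (b2 * g2 * g3) + 12471945 * (b2 * g2 * p) +
      43130340 * (b2 * g2 * w) + 26527677 * (b2 * g3 * p) + 4845357 * (b2 * p * w) +
      1472328 * (b2 * w * w) + 43443840 * (b3 * g3 * w) + 9597962 * (b3 * p * p) +
      4798860 * (b3 * w * w) + 33059664 * (g2 * b3 * b3) + 33059664 * (g2 * b3 * g3) +
      52695720 * (g2 * b3 * w) + 1512720 * (g2 * g2 * g2) + 5481432 * (g2 * g2 * g3) +
      4779612 * (g2 * g2 * p) + 74624 * (g2 * g3 * p) + 13799808 * (g2 * g3 * w) +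
      4183004 * (g2 * p * p) + 140566 * (g2 * p * w) + 2387088 * (g2 * w * w) +
      43443840 * (g3 * g3 * w) + 6624750 * (g3 * w * w) + 419166 * (p * p * p) +
      281820 * (w * w * w) := by
    positivity
  have hid : 6851988 * (3 * s * (s - 1) * (2 * s - 4 - 3 * j) + ((4 * s - 4 - 3 * j) - (2 * s - 4 - 3 * j)) *
      (a1 * (a1 - 1) + 4 * a1 * (b2 + g2) + 2 * (b2 + g2) * ((b2 + g2) - 1) +
        6 * (a1 + (b2 + g2)) * (b3 + g3) + 3 * (b3 + g3) * ((b3 + g3) - 1)) +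
      6 * (0) * a0 * (g2 + g3) + s * (18 * s - 12) - 6 * j * s +
      (b2 + g2) * (2 * s - 16) + (b3 + g3) * (2 * s - 10) + 6 * s ^ 2 * g2 +
      6 * (s + 1) ^ 2 * g3) = -(
      651675024 * (a0 * a0) + 657111312 * (a0 * a1) + 205981204 * (a0 * p) +
      221528736 * (a1 * a1) + 151667208 * (a1 * p) + 361091016 * (b2 * b2) +
      605466576 * (b2 * b3) + 414630216 * (b2 * g2) + 462208032 * (g2 * b3) +
      24041160 * (g2 * g2) + 59788520 * (g3 * p) + 19322732 * (p * p) + 4397140 * (p * w) +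
      214980480 * (a0 * a0 * b2) + 247690872 * (a0 * a0 * b3) + 19274112 * (a0 * a0 * g2) +
      51409644 * (a0 * a0 * p) + 24403236 * (a0 * a0 * w) + 287320176 * (a0 * a1 * b2) +
      330254496 * (a0 * a1 * b3) + 26378352 * (a0 * a1 * g2) + 40509040 * (a0 * a1 * p) +
      4211064 * (a0 * a1 * w) + 74464313 * (a0 * b2 * p) + 98869584 * (a0 * b3 * p) +
      5474040 * (a0 * b3 * w) + 40491556 * (a0 * g2 * p) + 11083270 * (a0 * p * p) +
      95999904 * (a1 * a1 * b2) + 110084832 * (a1 * a1 * b3) + 9019296 * (a1 * a1 * g2) +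
      4157296 * (a1 * a1 * p) + 6247560 * (a1 * a1 * w) + 12926232 * (a1 * b2 * b2) +
      12710808 * (a1 * b2 * g2) + 49252973 * (a1 * b2 * p) + 65913056 * (a1 * b3 * p) +
      19099608 * (a1 * b3 * w) + 11019888 * (a1 * g2 * b3) + 2053656 * (a1 * g2 * g2) +
      17786784 * (a1 * g2 * p) + 4599936 * (a1 * g2 * w) + 29931528 * (a1 * g3 * w) +
      2715988 * (a1 * p * p) + 2183082 * (a1 * w * w) + 1512720 * (b2 * b2 * b2) +
      10577952 * (b2 * b2 * b3) + 38099160 * (b2 * b2 * g3) + 6557793 * (b2 * b2 * p) +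
      39726720 * (b2 * b2 * w) + 31962997 * (b2 * b3 * p) + 55425744 * (b2 * b3 * w) +
      3770712 * (b2 * g2 * b3) + 36773352 * (b2 * g2 * g3) + 12471945 * (b2 * g2 * p) +
      43130340 * (b2 * g2 * w) + 26527677 * (b2 * g3 * p) + 4845357 * (b2 * p * w) +
      1472328 * (b2 * w * w) + 43443840 * (b3 * g3 * w) + 9597962 * (b3 * p * p) +
      4798860 * (b3 * w * w) + 33059664 * (g2 * b3 * b3) + 33059664 * (g2 * b3 * g3) +
      52695720 * (g2 * b3 * w) + 1512720 * (g2 * g2 * g2) + 5481432 * (g2 * g2 * g3) +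
      4779612 * (g2 * g2 * p) + 74624 * (g2 * g3 * p) + 13799808 * (g2 * g3 * w) +
      4183004 * (g2 * p * p) + 140566 * (g2 * p * w) + 2387088 * (g2 * w * w) +
      43443840 * (g3 * g3 * w) + 6624750 * (g3 * w * w) + 419166 * (p * p * p) +
      281820 * (w * w * w)) := by
    subst ew ep
    subst es ej
    ring
  linarith [hpos, hid]


theorem cAB_1 {s j : ℤ} (h : 3 * j ≤ s + 4) : cAB s j = -3 * j := by
  unfold cAB; omega

theorem cAB_2 {s j : ℤ} (h : s + 4 ≤ 3 * j) (h' : j ≤ s) : cAB s j = -s - 4 := by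
  unfold cAB; omega

theorem cAB_3 {s j : ℤ} (hs : 2 ≤ s) (h : s ≤ j) : cAB s j = 2 * s - 4 - 3 * j := by
  unfold cAB; omega

theorem cC_1 {s j : ℤ} (h : 2 * j ≤ 3 * s + 2) : cC s j = s - 6 - j := by
  unfold cC; omega

theorem cC_2 {s j : ℤ} (h : 3 * s + 2 ≤ 2 * j) : cC s j = 4 * s - 4 - 3 * j := by
  unfold cC; omega

theorem dL_1 {s j : ℤ} (hs : 3 ≤ s) (h : 3 * j ≤ s + 4) :
    min (cFL s j) (cAB s j) - cAB s j = 2 * j - s - 6 := by
  rw [cAB_1 h]; unfold cFL; omega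

theorem dL_2 {s j : ℤ} (hs : 3 ≤ s) (h : s + 4 ≤ 3 * j) (h' : j ≤ s) :
    min (cFL s j) (cAB s j) - cAB s j = -j - 2 := by
  rw [cAB_2 h h']; unfold cFL; omega

theorem dL_3 {s j : ℤ} (hs : 3 ≤ s) (h : s ≤ j) (h' : 2 * j ≤ 3 * s + 2) :
    min (cFL s j) (cAB s j) - cAB s j = 2 * j - 3 * s - 2 := by
  rw [cAB_3 (by omega) h]; unfold cFL; omega

theorem dL_4 {s j : ℤ} (hs : 3 ≤ s) (h : 3 * s + 2 ≤ 2 * j) :
    min (cFL s j) (cAB s j) - cAB s j = 0 := by
  rw [cAB_3 (by omega) (by omega)]; unfold cFL; omega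

theorem large3 {s j a0 a1 b2 g2 b3 g3 : ℤ} (hs : 8 ≤ s) (hj : 3 ≤ j) (h0 : 0 ≤ a0)
    (h1 : 0 ≤ a1) (h2 : 0 ≤ b2) (h3 : 0 ≤ g2) (h4 : 0 ≤ b3) (h5 : 0 ≤ g3)
    (es : s = a0 + a1 + (b2 + g2) + (b3 + g3)) (ej : j = a1 + 2 * (b2 + g2) + 3 * (b3 + g3)) :
    disp s j a0 a1 (b2 + g2) (b3 + g3) g2 g3 ≤ 0 := by
  have m1 : max 0 (2 * s - 16) = 2 * s - 16 := by omega
  have m2 : max 0 (2 * s - 10) = 2 * s - 10 := by omega
  by_cases c1 : 3 * j ≤ s + 4
  · have := reg1 h0 h1 h2 h3 h4 h5 es ej (p := s + 4 - 3 * j) (by omega) rfl (jj := j - 3)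
      (by omega) rfl
    unfold disp
    rw [dL_1 (by omega) c1, cAB_1 c1, cC_1 (by omega), m1, m2]
    exact this
  by_cases c2 : j ≤ s
  · have := reg2 h0 h1 h2 h3 h4 h5 es ej (p := 3 * j - s - 4) (by omega) rfl (q := s - j)
      (by omega) rfl (w := s - 8) (by omega) rfl
    unfold disp
    rw [dL_2 (by omega) (by omega) c2, cAB_2 (by omega) c2, cC_1 (by omega), m1, m2]
    exact this
  by_cases c3 : 2 * j ≤ 3 * s + 2
  · have := reg3 h0 h1 h2 h3 h4 h5 es ej (p := j - s) (by omega) rfl (q := 3 * s + 2 - 2 * j)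
      (by omega) rfl (w := s - 8) (by omega) rfl
    unfold disp
    rw [dL_3 (by omega) (by omega) c3, cAB_3 (by omega) (by omega), cC_1 (by omega), m1, m2]
    exact this
  · have := reg4 h0 h1 h2 h3 h4 h5 es ej (p := 2 * j - 3 * s - 2) (by omega) rfl (w := s - 8)
      (by omega) rfl
    unfold disp
    rw [dL_4 (by omega) (by omega), cAB_3 (by omega) (by omega), cC_2 (by omega), m1, m2]
    exact this

theorem two {s a0 a1 a2 a3 g2 g3 : ℤ} (hs : 8 ≤ s) (h0 : 0 ≤ a0)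
    (h1 : 0 ≤ a1) (h2 : 0 ≤ g2) (h3 : g2 ≤ a2) (h4 : 0 ≤ g3) (h5 : g3 ≤ a3)
    (es : a0 + a1 + a2 + a3 = s) (ej : a1 + 2 * a2 + 3 * a3 = 2) :
    disp s 2 a0 a1 a2 a3 g2 g3 ≤ 0 := by
  have m1 : max 0 (2 * s - 16) = 2 * s - 16 := by omega
  have m2 : max 0 (2 * s - 10) = 2 * s - 10 := by omega
  have e3 : a3 = 0 := by omega
  have eg3 : g3 = 0 := by omega
  subst e3 eg3
  unfold disp
  rw [dL_1 (by omega) (by omega), cAB_1 (by omega), cC_1 (by omega), m1, m2]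
  have hc : (a2 = 0 ∧ g2 = 0) ∨ (a2 = 1 ∧ g2 = 0) ∨ (a2 = 1 ∧ g2 = 1) := by omega
  rcases hc with ⟨e2, eg⟩ | ⟨e2, eg⟩ | ⟨e2, eg⟩
  · subst e2 eg
    have e1 : a1 = 2 := by omega
    subst e1
    ring_nf
    nlinarith
  · subst e2 eg
    have e1 : a1 = 0 := by omega
    subst e1
    ring_nf
    nlinarith
  · subst e2 eg
    have e1 : a1 = 0 := by omega
    subst e1
    have e0 : a0 = s - 1 := by omega
    subst e0
    ring_nf
    nlinarith

/-- the finite check, as a boolean -/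
def chk (s : ℕ) : Bool :=
  (List.range (s + 1)).all fun a1 => (List.range (s + 1 - a1)).all fun a2 =>
    (List.range (s + 1 - a1 - a2)).all fun a3 => decide (a1 + 2 * a2 + 3 * a3 < 2) ||
      (List.range (a2 + 1)).all fun g2 => (List.range (a3 + 1)).all fun g3 =>
        decide (disp ((s : ℕ) : ℤ) (((a1 + 2 * a2 + 3 * a3 : ℕ)) : ℤ)
          (((s - a1 - a2 - a3 : ℕ)) : ℤ) ((a1 : ℕ) : ℤ) ((a2 : ℕ) : ℤ) ((a3 : ℕ) : ℤ)
          ((g2 : ℕ) : ℤ) ((g3 : ℕ) : ℤ) ≤ 0)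

theorem chk3 : chk 3 = true := by decide +kernel
theorem chk4 : chk 4 = true := by decide +kernel
theorem chk5 : chk 5 = true := by decide +kernel
theorem chk6 : chk 6 = true := by decide +kernel
theorem chk7 : chk 7 = true := by decide +kernel

theorem small {s a1 a2 a3 g2 g3 : ℕ} (hs : s < 8) (hs3 : 3 ≤ s) (h1 : a1 < s + 1)
    (h2 : a2 < s + 1 - a1) (h3 : a3 < s + 1 - a1 - a2) (hj : 2 ≤ a1 + 2 * a2 + 3 * a3)
    (h4 : g2 < a2 + 1) (h5 : g3 < a3 + 1) :
    disp ((s : ℕ) : ℤ) (((a1 + 2 * a2 + 3 * a3 : ℕ)) : ℤ) (((s - a1 - a2 - a3 : ℕ)) : ℤ)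
      ((a1 : ℕ) : ℤ) ((a2 : ℕ) : ℤ) ((a3 : ℕ) : ℤ) ((g2 : ℕ) : ℤ) ((g3 : ℕ) : ℤ) ≤ 0 := by
  have hc : chk s = true := by
    have : s = 3 ∨ s = 4 ∨ s = 5 ∨ s = 6 ∨ s = 7 := by omega
    rcases this with rfl | rfl | rfl | rfl | rfl
    · exact chk3
    · exact chk4
    · exact chk5
    · exact chk6
    · exact chk7
  unfold chk at hc
  rw [List.all_eq_true] at hc
  have k1 := hc a1 (List.mem_range.2 h1)
  rw [List.all_eq_true] at k1
  have k2 := k1 a2 (List.mem_range.2 h2)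
  rw [List.all_eq_true] at k2
  have k3 := k2 a3 (List.mem_range.2 h3)
  rw [Bool.or_eq_true] at k3
  rcases k3 with k3 | k3
  · exfalso
    have := of_decide_eq_true k3
    omega
  · rw [List.all_eq_true] at k3
    have k4 := k3 g2 (List.mem_range.2 h4)
    rw [List.all_eq_true] at k4
    exact of_decide_eq_true (k4 g3 (List.mem_range.2 h5))

end Fin60

/-- **[F]** the final arithmetic of the case `2 ≤ j` -/
theorem disp_le {s j : ℤ} (hs : 3 ≤ s) (hj : 2 ≤ j) :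
    ∀ a0 a1 a2 a3 g2 g3 : ℤ, 0 ≤ a0 → 0 ≤ a1 → 0 ≤ g2 → g2 ≤ a2 → 0 ≤ g3 → g3 ≤ a3 →
      a0 + a1 + a2 + a3 = s → a1 + 2 * a2 + 3 * a3 = j → disp s j a0 a1 a2 a3 g2 g3 ≤ 0 := by
  intro a0 a1 a2 a3 g2 g3 h0 h1 hg2 h2 hg3 h3 es ej
  by_cases h8 : 8 ≤ s
  · by_cases hj3 : 3 ≤ j
    · obtain ⟨b2, e2⟩ : ∃ b2, a2 = b2 + g2 := ⟨a2 - g2, by ring⟩
      obtain ⟨b3, e3⟩ : ∃ b3, a3 = b3 + g3 := ⟨a3 - g3, by ring⟩
      subst e2 e3
      exact Fin60.large3 h8 hj3 h0 h1 (by omega) hg2 (by omega) hg3 es.symm ej.symm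
    · have e : j = 2 := by omega
      subst e
      exact Fin60.two h8 h0 h1 hg2 h2 hg3 h3 es ej
  · obtain ⟨s', rfl⟩ := Int.eq_ofNat_of_zero_le (show 0 ≤ s by omega)
    obtain ⟨n1, rfl⟩ := Int.eq_ofNat_of_zero_le h1
    obtain ⟨n2, rfl⟩ := Int.eq_ofNat_of_zero_le (hg2.trans h2)
    obtain ⟨n3, rfl⟩ := Int.eq_ofNat_of_zero_le (hg3.trans h3)
    obtain ⟨m2, rfl⟩ := Int.eq_ofNat_of_zero_le hg2
    obtain ⟨m3, rfl⟩ := Int.eq_ofNat_of_zero_le hg3
    have e0 : a0 = ((s' - n1 - n2 - n3 : ℕ) : ℤ) := by omega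
    have e1 : j = ((n1 + 2 * n2 + 3 * n3 : ℕ) : ℤ) := by push_cast; omega
    rw [e0, e1]
    exact Fin60.small (by omega) (by omega) (by omega) (by omega) (by omega) (by omega)
      (by omega) (by omega)

end RouteA
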